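import Mathlib
import Pool.Agent.H23.ZHeis

namespace Pool.Agent.Results.MP_3a9d0e_gt.NotClosed

/-- There is a finite-dimensional real Lie group `K` (Hausdorff, second countable) and a subgroup
`G` of `K` that is not closed, although every closed zero-dimensional subgroup of `G`
(metrizable or not) is discrete. -/
theorem result : ∃ (E : Type) (_ : NormedAddCommGroup E) (_ : NormedSpace ℝ E)
    (_ : FiniteDimensional ℝ E) (K : Type) (_ : Group K) (_ : TopologicalSpace K)
    (_ : ChartedSpace E K) (_ : LieGroup (modelWithCornersSelf ℝ E) ⊤ K) (_ : T2Space K)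
    (_ : SecondCountableTopology K) (G : Subgroup K),
    (∀ H : Subgroup G, IsClosed (H : Set G) →
      TopologicalSpace.IsTopologicalBasis {s : Set H | IsClopen s} → DiscreteTopology H) ∧
    ¬ IsClosed (G : Set K) :=
  ⟨H23.ZHeis.E, inferInstance, inferInstance, inferInstance, H23.ZHeis.K, inferInstance,
    inferInstance, inferInstance, H23.ZHeis.lie, inferInstance,
    inferInstanceAs (SecondCountableTopology H23.ZHeis.E), H23.ZHeis.G,
    H23.ZHeis.propZ, H23.ZHeis.G_not_closed⟩

end Pool.Agent.Results.MP_3a9d0e_gt.NotClosed
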